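import Pool.Agent.Helper894.LD.Main

namespace Pool.Agent.Results.MP_9d5bb5_an.IntegrableFullGroup

open MeasureTheory

/-- h is an automorphism of the measure space -/
def IsAut {X : Type*} [MeasurableSpace X] (μ : Measure X) (h : Equiv.Perm X) : Prop :=
  MeasurePreserving h μ μ ∧ Measurable h.symm

/-- h belongs to the integrable full group of T: almost everywhere h x is the point
obtained by applying the power c x of T to x, with an integrable integer valued c -/
def InL1FullGroup {X : Type*} [MeasurableSpace X] (μ : Measure X) (T h : Equiv.Perm X) : Prop :=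
  IsAut μ h ∧ ∃ c : X → ℤ, Measurable c ∧ Integrable (fun x => (c x : ℝ)) μ ∧
    ∀ᵐ x ∂μ, h x = (T ^ c x) x

/-- A discrete subgroup of the integrable full group of a probability measure preserving
transformation contains no nonabelian free group. -/
theorem result {X : Type*} [MeasurableSpace X] (μ : Measure X) [IsProbabilityMeasure μ]
    (T : Equiv.Perm X) (hT : IsAut μ T) (H : Subgroup (Equiv.Perm X))
    (hH : ∀ h ∈ H, InL1FullGroup μ T h) (ε : ℝ) (hε : 0 < ε)
    (hdisc : ∀ h ∈ H, μ.real {x | h x ≠ x} = 0 ∨ ε ≤ μ.real {x | h x ≠ x})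
    (f : FreeGroup (Fin 2) →* H) :
    ∃ w : FreeGroup (Fin 2), w ≠ 1 ∧ ∀ᵐ x ∂μ, (f w : Equiv.Perm X) x = x := by
  let e : FreeGroup Bool ≃* FreeGroup (Fin 2) := FreeGroup.freeGroupCongr finTwoEquiv.symm
  let g : Bool → Equiv.Perm X := fun b => (f (e (FreeGroup.of b)) : Equiv.Perm X)
  have hg : ∀ b, InL1FullGroup μ T (g b) := fun b => hH _ (f (e (FreeGroup.of b))).2
  choose hga c hcm hci hc using hg
  let T' : X ≃ᵐ X := ⟨T, hT.1.measurable, hT.2⟩
  let a : Bool → X ≃ᵐ X := fun b => ⟨g b, (hga b).1.measurable, (hga b).2⟩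
  obtain ⟨w, hw1, hw2⟩ := Pool.Agent.Helper894.FS.ae_version μ T' hT.1 a
    (fun b => (hga b).1) c hcm (fun b => hc b) hci (ε / 2) (half_pos hε)
  have hlift : FreeGroup.lift (fun b => ((a b).toEquiv : Equiv.Perm X)) =
      (H.subtype.comp f).comp e.toMonoidHom := by
    apply FreeGroup.ext_hom
    intro b
    rw [FreeGroup.lift_apply_of]
    rfl
  rw [hlift] at hw2
  refine ⟨e w, fun h => hw1 (e.injective (by rw [h, map_one])), ?_⟩
  have hset : {x | (((H.subtype.comp f).comp e.toMonoidHom) w : Equiv.Perm X) x ≠ x} =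
      {x | (f (e w) : Equiv.Perm X) x ≠ x} := rfl
  rw [hset] at hw2
  rcases hdisc _ (f (e w)).2 with h0 | h1
  · have h2 : μ {x | (f (e w) : Equiv.Perm X) x ≠ x} = 0 := by
      rwa [measureReal_eq_zero_iff] at h0
    rw [ae_iff]
    exact h2
  · linarith

end Pool.Agent.Results.MP_9d5bb5_an.IntegrableFullGroup
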